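import Pool.Agent.W424.KI.Stm
import Pool.Agent.W808.KZ.T_ADJ

/-!
# Parity in the annulus: two different sectors have crossing clusters of the annulus with adjacent
touching points at the inner boundary
-/

set_option autoImplicit false

namespace Pool.Agent.W320.KI
open H974 H906.Cyl
open Pool.Agent.H160R2.ML (nm)
open Pool.Agent.W801.OU
open Pool.Agent.W424.KI

namespace ADJI
open Pool.Agent.W808.KZ.TADJ hiding ind
open Pool.Agent.W808.KZ.TADJ renaming ind → idx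

theorem ans_sub (d R : ℤ) : AnS d R ⊆ bxz R := fun _ h => h.2

theorem nm_le {v : ℤ × ℤ} {R : ℤ} : nm v ≤ R ↔ (-R ≤ v.1 ∧ v.1 ≤ R) ∧ (-R ≤ v.2 ∧ v.2 ≤ R) := by
  unfold nm
  rw [max_le_iff, abs_le, abs_le]

theorem le_nm {v : ℤ × ℤ} {d : ℤ} : d ≤ nm v ↔ (v.1 ≤ -d ∨ d ≤ v.1) ∨ (v.2 ≤ -d ∨ d ≤ v.2) := by
  unfold nm
  rw [le_max_iff, le_abs, le_abs]
  omega

/-- coordinates of the square -/
theorem edz_cases (s t : ℤ) :
    ((s + t) % 2 = 0 ∧ src (edz s t) = ((s + t) / 2, (s - t) / 2) ∧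
      tgt (edz s t) = ((s + t) / 2 + 1, (s - t) / 2)) ∨
    ((s + t) % 2 = 1 ∧ src (edz s t) = ((s + t + 1) / 2, (s - t - 1) / 2) ∧
      tgt (edz s t) = ((s + t + 1) / 2, (s - t - 1) / 2 + 1)) := by
  unfold edz
  split_ifs with h
  · left
    exact ⟨h, rfl, by rw [tgt_true]⟩
  · right
    exact ⟨by omega, rfl, by rw [tgt_false]⟩

theorem geo {d R : ℤ} (hd : 0 ≤ d) (hR : d + 1 ≤ R) {s t s' t' : ℤ}
    (hN : (s' = s ∧ (t' = t + 1 ∨ t' = t - 1)) ∨ (t' = t ∧ (s' = s + 1 ∨ s' = s - 1)) ∨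
      (t' = t ∧ t < 0 ∧ ((s = 0 ∧ s' = -2) ∨ (s = -2 ∧ s' = 0))))
    (h1 : edz s t ∈ bxz R) (h2 : edz s' t' ∉ bxz R) : edz s t ∈ AnS d R := by
  have h3 : nm (src (edz s t)) ≤ R ∧ nm (tgt (edz s t)) ≤ R := h1
  have h4 : ¬ (nm (src (edz s' t')) ≤ R ∧ nm (tgt (edz s' t')) ≤ R) := h2
  refine ⟨?_, h1⟩
  rw [nm_le, nm_le] at h3 h4
  rw [le_nm, le_nm]
  rcases edz_cases s t with ⟨p1, p2, p3⟩ | ⟨p1, p2, p3⟩ <;>
    rcases edz_cases s' t' with ⟨q1, q2, q3⟩ | ⟨q1, q2, q3⟩ <;>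
    rw [p2, p3] at h3 ⊢ <;> rw [q2, q3] at h4 <;> simp only at h3 h4 ⊢ <;>
    rcases hN with ⟨rfl, rfl | rfl⟩ | ⟨rfl, rfl | rfl⟩ | ⟨rfl, ht, ⟨rfl, rfl⟩ | ⟨rfl, rfl⟩⟩ <;> omega

theorem nb_pos (h : HE) :
    ((nb h).1.1 = h.1.1 ∧ ((nb h).1.2 = h.1.2 + 1 ∨ (nb h).1.2 = h.1.2 - 1)) ∨
    ((nb h).1.2 = h.1.2 ∧ ((nb h).1.1 = h.1.1 + 1 ∨ (nb h).1.1 = h.1.1 - 1)) ∨
      ((nb h).1.2 = h.1.2 ∧ h.1.2 < 0 ∧ ((h.1.1 = 0 ∧ (nb h).1.1 = -2) ∨
        (h.1.1 = -2 ∧ (nb h).1.1 = 0))) := by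
  obtain ⟨⟨s, d⟩, k⟩ := h
  revert k
  refine fin4 _ ?_ ?_ ?_ ?_
  · left; exact ⟨rfl, Or.inr rfl⟩
  · left; exact ⟨rfl, Or.inl rfl⟩
  · by_cases h1 : d < 0 ∧ s = 0
    · right; right
      simp only [nb, if_pos h1]
      exact ⟨trivial, h1.1, Or.inl ⟨h1.2, trivial⟩⟩
    · right; left
      simp only [nb, if_neg h1]
      exact ⟨trivial, Or.inr trivial⟩
  · by_cases h1 : d < 0 ∧ s = -2
    · right; right
      simp only [nb, if_pos h1]
      exact ⟨trivial, h1.1, Or.inr ⟨h1.2, trivial⟩⟩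
    · right; left
      simp only [nb, if_neg h1]
      exact ⟨trivial, Or.inl trivial⟩

/-- the sum over all the sides vanishes -/
theorem all0 (B G : Set Edg) (Q : Finset (ℤ × ℤ))
    (memQ : ∀ q : ℤ × ℤ, q ∈ Q ↔ edz q.1 q.2 ∈ B ∧ ok q) (A D : ℤ × ℤ → Prop)
    (hA : ∀ x y, LZ {0} B G x y → (A x ↔ A y)) (hD : ∀ x y, LZ {0} B G x y → (D x ↔ D y)) :
    ∑ h ∈ Q ×ˢ (Finset.univ : Finset (Fin 4)), idx A D h = 0 := by
  rw [Finset.sum_product]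
  apply Finset.sum_eq_zero
  rintro ⟨s, t⟩ hq
  rw [memQ] at hq
  apply sum4
  rcases link B G s t hq.1 hq.2 with h | h
  · left
    exact ⟨hA _ _ h, hD _ _ h⟩
  · right
    exact ⟨hA _ _ h, hD _ _ h⟩

open Classical in
/-- the sides between two squares of `B` cancel -/
theorem cancel (B : Set Edg) (Q : Finset (ℤ × ℤ))
    (memQ : ∀ q : ℤ × ℤ, q ∈ Q ↔ edz q.1 q.2 ∈ B ∧ ok q) (A D : ℤ × ℤ → Prop) :
    ∑ h ∈ (Q ×ˢ (Finset.univ : Finset (Fin 4))).filter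
      (fun h => ¬ tip h ∧ edz (nb h).1.1 (nb h).1.2 ∈ B), idx A D h = 0 := by
  have h3 : ∑ h ∈ (Q ×ˢ (Finset.univ : Finset (Fin 4))).filter
        (fun h => ¬ tip h ∧ edz (nb h).1.1 (nb h).1.2 ∈ B), idx A D h =
      ∑ h ∈ ((Q ×ˢ (Finset.univ : Finset (Fin 4))).filter
        (fun h => ¬ tip h ∧ edz (nb h).1.1 (nb h).1.2 ∈ B)).filter
        (fun h => act A D (P1 h) (P2 h)), (1 : ZMod 2) := by
    rw [Finset.sum_filter (fun h => act A D (P1 h) (P2 h))]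
    apply Finset.sum_congr rfl
    intro h _
    unfold Pool.Agent.W808.KZ.TADJ.ind iv
    rfl
  rw [h3]
  have hmem : ∀ h : HE, h ∈ ((Q ×ˢ (Finset.univ : Finset (Fin 4))).filter
        (fun h => ¬ tip h ∧ edz (nb h).1.1 (nb h).1.2 ∈ B)).filter
        (fun h => act A D (P1 h) (P2 h)) ↔ (edz h.1.1 h.1.2 ∈ B ∧ ok h.1) ∧
          (¬ tip h ∧ edz (nb h).1.1 (nb h).1.2 ∈ B) ∧ act A D (P1 h) (P2 h) := by
    intro h
    rw [Finset.mem_filter, Finset.mem_filter, Finset.mem_product, memQ]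
    simp only [Finset.mem_univ, and_true]
    tauto
  apply Finset.sum_involution (fun h _ => nb h)
  · intro a ha; decide
  · intro a ha _; exact nb_ne a
  · intro h hh
    rw [hmem] at hh ⊢
    obtain ⟨⟨h4, h5⟩, ⟨h6, h6'⟩, h7⟩ := hh
    have h8 := nb_ok h5 h6
    obtain ⟨h9, h10⟩ := nb_P h5 h6
    refine ⟨⟨h6', h8⟩, ⟨nb_tip h5 h6, ?_⟩, ?_⟩
    · rw [nb_nb h5]; exact h4
    · rw [h9, h10]; exact h7
  · intro h hh
    rw [hmem] at hh
    exact nb_nb hh.1.2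

open Classical in
/-- the sides at the tip -/
theorem tipsum (R : ℕ) (G : Set Edg) (Q : Finset (ℤ × ℤ)) (hR : 1 ≤ R)
    (memQ : ∀ q : ℤ × ℤ, q ∈ Q ↔ edz q.1 q.2 ∈ bxz (R : ℤ) ∧ ok q)
    (hn : ∀ c d : ℕ, c < 3 → d < 3 → c ≠ d → ¬ RZ {0} (bxz R) G (scz 0 0 c) (scz 0 0 d))
    (c d : ℕ) (hc : c < 3) (hd : d < 3) (hcd : c ≠ d) :
    ∑ h ∈ (Q ×ˢ (Finset.univ : Finset (Fin 4))).filter (fun h => tip h),
      idx (RZ {0} (bxz R) G (scz 0 0 c)) (RZ {0} (bxz R) G (scz 0 0 d)) h ≠ 0 := by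
  intro hsum
  set A : ℤ × ℤ → Prop := RZ {0} (bxz R) G (scz 0 0 c) with hA
  set D : ℤ × ℤ → Prop := RZ {0} (bxz R) G (scz 0 0 d) with hD
  have hR' : (1 : ℤ) ≤ R := by exact_mod_cast hR
  obtain ⟨hb1, hb2, hb3⟩ := tip_box hR'
  have h4 : (Q ×ˢ (Finset.univ : Finset (Fin 4))).filter (fun h => tip h) =
      {((-1, 0), 0), ((0, 0), 0), ((0, -1), 1)} := by
    ext h
    rw [Finset.mem_filter, Finset.mem_product, memQ]
    simp only [Finset.mem_univ, and_true, Finset.mem_insert, Finset.mem_singleton]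
    constructor
    · exact fun h => h.2
    · intro h'
      refine ⟨?_, h'⟩
      rcases h' with rfl | rfl | rfl
      · exact ⟨hb1, by unfold ok; simp⟩
      · exact ⟨hb2, by unfold ok; simp⟩
      · exact ⟨hb3, by unfold ok; simp⟩
  rw [h4, Finset.sum_insert (by decide), Finset.sum_insert (by decide), Finset.sum_singleton] at hsum
  have hs0 : scz 0 0 0 = (-1, 0) := by simp [scz]
  have hs1 : scz 0 0 1 = (0, 0) := by simp [scz]
  have hs2 : scz 0 0 2 = (1, 0) := by simp [scz]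
  have e1 : P1 ((-1, 0), 0) = scz 0 0 0 := by rw [hs0]; decide
  have e2 : P2 ((-1, 0), 0) = scz 0 0 1 := by rw [hs1]; decide
  have e3 : P1 ((0, 0), 0) = scz 0 0 1 := by rw [hs1]; decide
  have e4 : P2 ((0, 0), 0) = scz 0 0 2 := by rw [hs2]; decide
  have e5 : P1 ((0, -1), 1) = scz 0 0 0 := by rw [hs0]; decide
  have e6 : P2 ((0, -1), 1) = scz 0 0 2 := by rw [hs2]; decide
  have hAv : ∀ i : ℕ, i < 3 → (A (scz 0 0 i) ↔ i = c) := by
    intro i hi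
    constructor
    · intro h
      by_contra hne
      exact hn c i hc hi (fun h => hne h.symm) h
    · rintro rfl; exact .refl _
  have hDv : ∀ i : ℕ, i < 3 → (D (scz 0 0 i) ↔ i = d) := by
    intro i hi
    constructor
    · intro h
      by_contra hne
      exact hn d i hd hi (fun h => hne h.symm) h
    · rintro rfl; exact .refl _
  simp only [Pool.Agent.W808.KZ.TADJ.ind, act, e1, e2, e3, e4, e5, e6, hAv 0 (by norm_num), hAv 1 (by norm_num),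
    hAv 2 (by norm_num), hDv 0 (by norm_num), hDv 1 (by norm_num), hDv 2 (by norm_num)] at hsum
  have hc' : c = 0 ∨ c = 1 ∨ c = 2 := by omega
  have hd' : d = 0 ∨ d = 1 ∨ d = 2 := by omega
  clear_value A D
  rcases hc' with rfl | rfl | rfl <;> rcases hd' with rfl | rfl | rfl
  · exact hcd rfl
  · simp [iv] at hsum
  · simp [iv] at hsum
  · simp [iv] at hsum
  · exact hcd rfl
  · simp [iv] at hsum
  · simp [iv] at hsum
  · simp [iv] at hsum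
  · exact hcd rfl

theorem tip_ans {d R : ℤ} (hd : 2 ≤ d) {h : HE} (ht : tip h) : edz h.1.1 h.1.2 ∉ AnS d R := by
  have h1 : edz (-1) 0 = (0, -1, false) := by decide
  have h2 : edz 0 0 = (0, 0, true) := by decide
  have h3 : edz 0 (-1) = (0, 0, false) := by decide
  intro hh
  have h4 := hh.1.1
  rw [le_nm] at h4
  rcases ht with rfl | rfl | rfl
  · rw [h1] at h4
    simp only [src_mk] at h4
    omega
  · rw [h2] at h4
    simp only [src_mk] at h4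
    omega
  · rw [h3] at h4
    simp only [src_mk] at h4
    omega

theorem two_tou {R : ℤ} {e : Edg} {x y : ℤ × ℤ} (he : e ∉ bxz R) (h : Two e x y) :
    Tou R x ∧ Tou R y := by
  rcases h with ⟨h1, h2⟩ | ⟨h1, h2⟩
  · exact ⟨⟨e, he, Or.inl h1⟩, ⟨e, he, Or.inr h2⟩⟩
  · exact ⟨⟨e, he, Or.inr h1⟩, ⟨e, he, Or.inl h2⟩⟩

theorem main (d R : ℕ) (H : Set Edg) (hd : 2 ≤ d) (hR : d + 1 ≤ R) (hS : SE3 R H)
    (a b : ℕ) (ha : a < 3) (hb : b < 3) (hab : a ≠ b) :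
    ∃ (x y : ℤ × ℤ) (e e' : Edg), (e ∈ bxz R ∧ e ∉ AnS d R) ∧ e' ∈ AnS d R ∧
    RZ {0} (bxz R) H (scz 0 0 a) x ∧ RZ {0} (bxz R) H (scz 0 0 b) y ∧
    Crx d R H x ∧ Crx d R H y ∧ Two e x y ∧ Two e' x y := by
  classical
  by_contra hcon
  set A : ℤ × ℤ → Prop := RZ {0} (bxz R) H (scz 0 0 a) with hA
  set D : ℤ × ℤ → Prop := RZ {0} (bxz R) H (scz 0 0 b) with hD
  set A' : ℤ × ℤ → Prop := fun x => A x ∧ Crx d R H x with hA'
  set D' : ℤ × ℤ → Prop := fun x => D x ∧ Crx d R H x with hD'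
  have hdZ : (2 : ℤ) ≤ d := by exact_mod_cast hd
  have hRZ : (d : ℤ) + 1 ≤ R := by exact_mod_cast hR
  set I : Finset (ℤ × ℤ) := Finset.Icc (-(2 * (R : ℤ) + 1)) (2 * R + 1) ×ˢ
    Finset.Icc (-(2 * (R : ℤ) + 1)) (2 * R + 1) with hI
  set QB : Finset (ℤ × ℤ) := I.filter (fun q => edz q.1 q.2 ∈ bxz (R : ℤ) ∧ ok q) with hQB
  set QA : Finset (ℤ × ℤ) := I.filter (fun q => edz q.1 q.2 ∈ AnS (d : ℤ) R ∧ ok q) with hQA
  have memB : ∀ q : ℤ × ℤ, q ∈ QB ↔ edz q.1 q.2 ∈ bxz (R : ℤ) ∧ ok q := by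
    intro q
    rw [hQB, Finset.mem_filter, hI, Finset.mem_product, Finset.mem_Icc, Finset.mem_Icc]
    constructor
    · exact fun h => h.2
    · intro h
      have := mem_box_bd h.1
      exact ⟨by omega, h⟩
  have memA : ∀ q : ℤ × ℤ, q ∈ QA ↔ edz q.1 q.2 ∈ AnS (d : ℤ) R ∧ ok q := by
    intro q
    rw [hQA, Finset.mem_filter, hI, Finset.mem_product, Finset.mem_Icc, Finset.mem_Icc]
    constructor
    · exact fun h => h.2
    · intro h
      have := mem_box_bd (ans_sub _ _ h.1)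
      exact ⟨by omega, h⟩
  -- the box
  have hB0 := all0 (bxz (R : ℤ)) H QB memB A D
    (fun x y h => ⟨fun h' => h'.trans _ _ _ (.rel _ _ h),
      fun h' => h'.trans _ _ _ (.symm _ _ (.rel _ _ h))⟩)
    (fun x y h => ⟨fun h' => h'.trans _ _ _ (.rel _ _ h),
      fun h' => h'.trans _ _ _ (.symm _ _ (.rel _ _ h))⟩)
  have hBc := cancel (bxz (R : ℤ)) QB memB A D
  have hBt := tipsum R H QB (by omega) memB hS.1 a b ha hb hab
  have hO : ∑ h ∈ (QB ×ˢ (Finset.univ : Finset (Fin 4))).filter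
      (fun h => ¬ tip h ∧ edz (nb h).1.1 (nb h).1.2 ∉ bxz (R : ℤ)), idx A D h ≠ 0 := by
    intro h0
    apply hBt
    rw [← Finset.sum_filter_add_sum_filter_not _ (fun h => tip h)] at hB0
    rw [← Finset.sum_filter_add_sum_filter_not (Finset.filter (fun h => ¬ tip h) _)
      (fun h => edz (nb h).1.1 (nb h).1.2 ∈ bxz (R : ℤ))] at hB0
    rw [Finset.filter_filter, Finset.filter_filter] at hB0
    rw [hBc, h0, add_zero, add_zero] at hB0
    exact hB0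
  -- the annulus
  have hcr : ∀ x y, LZ {0} (AnS (d : ℤ) R) H x y → (Crx d R H x ↔ Crx d R H y) := by
    intro x y h
    constructor
    · rintro ⟨z, h1, h2⟩
      exact ⟨z, .trans _ _ _ (.symm _ _ (.rel _ _ h)) h1, h2⟩
    · rintro ⟨z, h1, h2⟩
      exact ⟨z, .trans _ _ _ (.rel _ _ h) h1, h2⟩
  have hlz : ∀ x y, LZ {0} (AnS (d : ℤ) R) H x y → LZ {0} (bxz (R : ℤ)) H x y := by
    rintro x y ⟨e, h1, h2⟩
    exact ⟨e, ans_sub _ _ h1, h2⟩
  have hA0 := all0 (AnS (d : ℤ) R) H QA memA A' D'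
    (fun x y h => and_congr ⟨fun h' => h'.trans _ _ _ (.rel _ _ (hlz _ _ h)),
      fun h' => h'.trans _ _ _ (.symm _ _ (.rel _ _ (hlz _ _ h)))⟩ (hcr _ _ h))
    (fun x y h => and_congr ⟨fun h' => h'.trans _ _ _ (.rel _ _ (hlz _ _ h)),
      fun h' => h'.trans _ _ _ (.symm _ _ (.rel _ _ (hlz _ _ h)))⟩ (hcr _ _ h))
  have hAc := cancel (AnS (d : ℤ) R) QA memA A' D'
  rw [← Finset.sum_filter_add_sum_filter_not _ (fun h => tip h)] at hA0
  rw [← Finset.sum_filter_add_sum_filter_not (Finset.filter (fun h => ¬ tip h) _)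
      (fun h => edz (nb h).1.1 (nb h).1.2 ∈ AnS (d : ℤ) R)] at hA0
  rw [Finset.filter_filter, Finset.filter_filter, hAc, zero_add] at hA0
  have hAt : ∑ h ∈ (QA ×ˢ (Finset.univ : Finset (Fin 4))).filter (fun h => tip h),
      idx A' D' h = 0 := by
    apply Finset.sum_eq_zero
    intro h hh
    rw [Finset.mem_filter, Finset.mem_product, memA] at hh
    exact absurd hh.1.1.1 (tip_ans hdZ hh.2)
  rw [hAt, zero_add] at hA0
  rw [← Finset.sum_filter_add_sum_filter_not (Finset.filter (fun h => ¬ tip h ∧ _) _)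
      (fun h => edz (nb h).1.1 (nb h).1.2 ∈ bxz (R : ℤ))] at hA0
  rw [Finset.filter_filter, Finset.filter_filter] at hA0
  -- the inner sides
  have hin : ∑ h ∈ (QA ×ˢ (Finset.univ : Finset (Fin 4))).filter
      (fun h => (¬ tip h ∧ edz (nb h).1.1 (nb h).1.2 ∉ AnS (d : ℤ) R) ∧
        edz (nb h).1.1 (nb h).1.2 ∈ bxz (R : ℤ)), idx A' D' h = 0 := by
    apply Finset.sum_eq_zero
    intro h hh
    rw [Finset.mem_filter, Finset.mem_product, memA] at hh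
    obtain ⟨⟨⟨h1, h2⟩, -⟩, ⟨h3, h4⟩, h5⟩ := hh
    unfold Pool.Agent.W808.KZ.TADJ.ind iv
    rw [if_neg]
    intro hact
    apply hcon
    have h8 := nb_ok h2 h3
    obtain ⟨h9, h10⟩ := nb_P h2 h3
    have hT := two_P h2
    have hT' := two_P h8
    rw [h9, h10] at hT'
    rcases hact with ⟨⟨h6, h6'⟩, ⟨h7, h7'⟩⟩ | ⟨⟨h6, h6'⟩, ⟨h7, h7'⟩⟩
    · exact ⟨_, _, _, _, ⟨h5, h4⟩, h1, h6, h7, h6', h7', hT', hT⟩
    · exact ⟨_, _, _, _, ⟨h5, h4⟩, h1, h6, h7, h6', h7', hT'.symm, hT.symm⟩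
  rw [hin, zero_add] at hA0
  -- the outer sides
  apply hO
  rw [← hA0]
  have hset : (QB ×ˢ (Finset.univ : Finset (Fin 4))).filter
      (fun h => ¬ tip h ∧ edz (nb h).1.1 (nb h).1.2 ∉ bxz (R : ℤ)) =
      (QA ×ˢ (Finset.univ : Finset (Fin 4))).filter
      (fun h => (¬ tip h ∧ edz (nb h).1.1 (nb h).1.2 ∉ AnS (d : ℤ) R) ∧
        edz (nb h).1.1 (nb h).1.2 ∉ bxz (R : ℤ)) := by
    ext h
    rw [Finset.mem_filter, Finset.mem_filter, Finset.mem_product, Finset.mem_product, memA, memB]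
    simp only [Finset.mem_univ, and_true]
    constructor
    · rintro ⟨⟨h1, h2⟩, h3, h4⟩
      exact ⟨⟨geo (by omega) hRZ (nb_pos h) h1 h4, h2⟩, ⟨h3, fun h => h4 (ans_sub _ _ h)⟩, h4⟩
    · rintro ⟨⟨h1, h2⟩, ⟨h3, -⟩, h4⟩
      exact ⟨⟨ans_sub _ _ h1, h2⟩, h3, h4⟩
  rw [hset]
  apply Finset.sum_congr rfl
  intro h hh
  rw [Finset.mem_filter, Finset.mem_product, memA] at hh
  obtain ⟨⟨⟨h1, h2⟩, -⟩, ⟨h3, -⟩, h5⟩ := hh
  have h8 := nb_ok h2 h3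
  obtain ⟨h9, h10⟩ := nb_P h2 h3
  have hT' := two_P h8
  rw [h9, h10] at hT'
  obtain ⟨t1, t2⟩ := two_tou h5 hT'
  have c1 : Crx d R H (P1 h) := ⟨_, .refl _, t1⟩
  have c2 : Crx d R H (P2 h) := ⟨_, .refl _, t2⟩
  unfold Pool.Agent.W808.KZ.TADJ.ind
  apply iv_congr
  simp only [act, hA', hD', c1, c2, and_true]

end ADJI

theorem t_ADJI : S_ADJI := by
  intro d R H hd hR hS a b ha hb hab
  exact ADJI.main d R H hd hR hS a b ha hb hab

end Pool.Agent.W320.KI
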